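import Pool.Agent.Helper82.SG.St

/-!
# Project SG (MP_e46579_co): module LNT, lists and networks
-/

set_option autoImplicit false

namespace Pool.Agent.Helper47.SG

open Finset Real MeasureTheory Pool.Agent.Helper77.Steiner Pool.Agent.Helper82.SG
open Pool.Agent.Helper18.GP (nlen NConn)
open scoped ENNReal

private theorem eqvGen_iff {E : Type} {m : List (E × E)} {V : Finset E}
    (h : ∀ q ∈ m, q.1 ∈ V ↔ q.2 ∈ V) {x y : E} (hxy : Relation.EqvGen (fun x y => (x, y) ∈ m) x y) :
    x ∈ V ↔ y ∈ V := by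
  induction hxy with
  | rel x y h1 => exact h (x, y) h1
  | refl x => exact Iff.rfl
  | symm x y _ ih => exact ih.symm
  | trans x y z _ _ ih1 ih2 => exact ih1.trans ih2

open Classical in
private theorem sum_toFinset_le {E : Type} [MetricSpace E] (m : List (E × E)) :
    ∑ q ∈ m.toFinset, dist q.1 q.2 ≤ nlen dist m := by
  have hdd : m.toFinset = m.dedup.toFinset := by ext q; simp
  rw [hdd, List.sum_toFinset _ (List.nodup_dedup m)]
  apply List.Sublist.sum_le_sum ((List.dedup_sublist m).map _)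
  intro a ha
  rw [List.mem_map] at ha
  obtain ⟨q, _, rfl⟩ := ha
  exact dist_nonneg

open Classical in
private theorem grow {E : Type} [MetricSpace E] (B : Finset E) (m : List (E × E)) (hB : B.Nonempty)
    (hm : ∀ p ∈ m, p.1 ∈ B ∧ p.2 ∈ B) (hc : NConn m (B : Set E)) (k : ℕ) :
    k + 1 ≤ B.card → ∃ V ⊆ B, V.card = k + 1 ∧ ∃ l, Net V l ∧
      l ≤ ∑ q ∈ m.toFinset.filter (fun q => q.1 ∈ V ∧ q.2 ∈ V), dist q.1 q.2 := by
  induction k with
  | zero =>
    intro _
    obtain ⟨b, hb⟩ := hB
    exact ⟨{b}, Finset.singleton_subset_iff.2 hb, Finset.card_singleton b, 0, Net.single b,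
      Finset.sum_nonneg fun _ _ => dist_nonneg⟩
  | succ k ih =>
    intro hk
    obtain ⟨V, hVB, hVk, l, hl, hle⟩ := ih (by omega)
    obtain ⟨b, hbB, hbV⟩ : ∃ b ∈ B, b ∉ V := by
      by_contra hcon
      push Not at hcon
      have := Finset.card_le_card (fun x hx => hcon x hx : B ⊆ V)
      omega
    obtain ⟨v, hv⟩ : V.Nonempty := Finset.card_pos.1 (by omega)
    have hsum : ∀ (q : E × E) (w : E), q ∈ m → w ∉ V → q.1 ∈ insert w V → q.2 ∈ insert w V →
        ¬ (q.1 ∈ V ∧ q.2 ∈ V) →
        ∑ q ∈ m.toFinset.filter (fun q => q.1 ∈ V ∧ q.2 ∈ V), dist q.1 q.2 + dist q.1 q.2 ≤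
        ∑ q ∈ m.toFinset.filter (fun q => q.1 ∈ insert w V ∧ q.2 ∈ insert w V), dist q.1 q.2 := by
      intro q w hq hw h1 h2 h3
      have hnot : q ∉ m.toFinset.filter (fun q => q.1 ∈ V ∧ q.2 ∈ V) := fun h =>
        h3 (Finset.mem_filter.1 h).2
      rw [add_comm, ← Finset.sum_insert (f := fun q : E × E => dist q.1 q.2) hnot]
      apply Finset.sum_le_sum_of_subset_of_nonneg
      · intro r hr
        rw [Finset.mem_insert] at hr
        rw [Finset.mem_filter]
        rcases hr with rfl | hr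
        · exact ⟨List.mem_toFinset.2 hq, h1, h2⟩
        · rw [Finset.mem_filter] at hr
          exact ⟨hr.1, Finset.mem_insert_of_mem hr.2.1, Finset.mem_insert_of_mem hr.2.2⟩
      · intro _ _ _
        exact dist_nonneg
    obtain ⟨q, hq, hq'⟩ : ∃ q ∈ m, ¬ (q.1 ∈ V ↔ q.2 ∈ V) := by
      by_contra hcon
      push Not at hcon
      exact hbV ((eqvGen_iff hcon (hc v (hVB hv) b hbB)).1 hv)
    by_cases h1 : q.1 ∈ V
    · have h2 : q.2 ∉ V := fun h => hq' ⟨fun _ => h, fun _ => h1⟩
      refine ⟨insert q.2 V, Finset.insert_subset (hm q hq).2 hVB, ?_, l + dist q.1 q.2,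
        Net.step hl h1 q.2, ?_⟩
      · rw [Finset.card_insert_of_notMem h2, hVk]
      · exact le_trans (by linarith) (hsum q q.2 hq h2 (Finset.mem_insert_of_mem h1)
          (Finset.mem_insert_self _ _) fun h => h2 h.2)
    · have h2 : q.2 ∈ V := by
        by_contra h
        exact hq' ⟨fun h' => absurd h' h1, fun h' => absurd h' h⟩
      refine ⟨insert q.1 V, Finset.insert_subset (hm q hq).1 hVB, ?_, l + dist q.2 q.1,
        Net.step hl h2 q.1, ?_⟩
      · rw [Finset.card_insert_of_notMem h1, hVk]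
      · rw [dist_comm q.2 q.1]
        exact le_trans (by linarith) (hsum q q.1 hq h1 (Finset.mem_insert_self _ _)
          (Finset.mem_insert_of_mem h2) fun h => h1 h.1)

open Classical in
private theorem net_list' {E : Type} [MetricSpace E] {V : Finset E} {l : ℝ} (h : Net V l) :
    V.Nonempty ∧ ∃ L : List (E × E), (∀ e ∈ L, e.1 ∈ V ∧ e.2 ∈ V) ∧ NConn L (V : Set E) ∧
      nlen dist L = l := by
  induction h with
  | single v =>
    refine ⟨⟨v, Finset.mem_singleton_self v⟩, [], by simp, ?_, by simp [nlen]⟩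
    intro a ha b hb
    rw [Finset.coe_singleton, Set.mem_singleton_iff] at ha hb
    rw [ha, hb]
    exact Relation.EqvGen.refl _
  | @step V l h p hp w ih =>
    obtain ⟨-, L, hL0, hL, hl⟩ := ih
    refine ⟨⟨w, Finset.mem_insert_self _ _⟩, (p, w) :: L, ?_, ?_, ?_⟩
    · intro e he
      rcases List.mem_cons.1 he with rfl | he
      · exact ⟨Finset.mem_insert_of_mem hp, Finset.mem_insert_self _ _⟩
      · exact ⟨Finset.mem_insert_of_mem (hL0 e he).1, Finset.mem_insert_of_mem (hL0 e he).2⟩
    · have mono : ∀ x y, Relation.EqvGen (fun x y => (x, y) ∈ L) x y →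
          Relation.EqvGen (fun x y => (x, y) ∈ (p, w) :: L) x y := by
        intro x y hxy
        exact hxy.mono fun a b hab => List.mem_cons_of_mem _ hab
      have key : ∀ a ∈ ((insert w V : Finset E) : Set E),
          Relation.EqvGen (fun x y => (x, y) ∈ (p, w) :: L) p a := by
        intro a ha
        rw [Finset.mem_coe, Finset.mem_insert] at ha
        rcases ha with rfl | ha
        · exact Relation.EqvGen.rel _ _ (List.mem_cons_self)
        · exact mono _ _ (hL _ hp _ ha)
      intro a ha b hb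
      exact ((key a ha).symm).trans _ _ _ (key b hb)
    · have : nlen dist ((p, w) :: L) = dist p w + nlen dist L := by
        simp [nlen]
      rw [this, hl, add_comm]

theorem hLNT (hMST : StMST) : StLNT := by
  classical
  intro E _
  refine ⟨fun B hB => ?_, fun V l h => ?_⟩
  · obtain ⟨m, hm, hc, -, hlen⟩ := hMST B hB
    have hcard : B.card - 1 + 1 = B.card := Nat.sub_add_cancel (Finset.card_pos.2 hB)
    obtain ⟨V, hVB, hVk, l, hl, hle⟩ := grow B m hB (fun p hp => ⟨(hm p hp).1, (hm p hp).2.1⟩) hc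
      (B.card - 1) hcard.le
    obtain rfl : V = B := Finset.eq_of_subset_of_card_le hVB (by omega)
    refine ⟨l, hle.trans ?_, hl⟩
    rw [← hlen]
    refine le_trans ?_ (sum_toFinset_le m)
    exact Finset.sum_le_sum_of_subset_of_nonneg (Finset.filter_subset _ _) fun _ _ _ => dist_nonneg
  · obtain ⟨hV, L, hL0, hL, rfl⟩ := net_list' h
    exact Pool.Agent.Helper77.GP.mstLen_le_list V hV L hL0 hL

end Pool.Agent.Helper47.SG
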